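import Pool.Agent.H6.FIB.TargetsG

/-!
# MP_7500ea_al, board fib_modules: row AL5
-/

open scoped Classical

namespace Pool.Agent.H52.FIB

open FI AMc AMt

/-- two even permutations which do not commute -/
lemma exists_noncomm : ∃ a ∈ A5, ∃ b ∈ A5, a * b ≠ b * a := by
  refine ⟨Equiv.swap 0 1 * Equiv.swap 1 2, ?_, Equiv.swap 2 3 * Equiv.swap 3 4, ?_, ?_⟩
  · rw [Equiv.Perm.mem_alternatingGroup, map_mul, Equiv.Perm.sign_swap (by decide),
      Equiv.Perm.sign_swap (by decide)]
    decide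
  · rw [Equiv.Perm.mem_alternatingGroup, map_mul, Equiv.Perm.sign_swap (by decide),
      Equiv.Perm.sign_swap (by decide)]
    decide
  · decide

theorem pf_AL5 (h1 : T_S5R) : T_AL5 := by
  intro A _ _ f hf hA
  have hnA5 : (A5 : Subgroup (Equiv.Perm (Fin 5))).Normal := by
    unfold A5; infer_instance
  have hback : ∀ N : Subgroup A, A5 ≤ N.map f → A5.comap f ≤ N := by
    intro N h
    have h2 := Subgroup.comap_mono (f := f) h
    rwa [Subgroup.comap_map_eq_self_of_injective hf] at h2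
  have hbot : ∀ N : Subgroup A, N ≠ ⊥ → N.map f ≠ ⊥ := by
    intro N hN h
    apply hN
    rwa [Subgroup.map_eq_bot_iff_of_injective N hf] at h
  refine ⟨?_, ?_, ?_, ?_, ?_⟩
  · exact hnA5.comap f
  · intro N hN hN0
    apply hback
    refine h1 f.range (N.map f) hA (Subgroup.map_le_range f N) ?_ (hbot N hN0)
    rintro g ⟨a, rfl⟩ n ⟨m, hm, rfl⟩
    exact ⟨a * m * a⁻¹, hN.conj_mem m hm a, by simp⟩
  · intro N hN hnorm
    by_cases hN0 : N = ⊥
    · exact Or.inl hN0
    · right
      apply le_antisymm hN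
      apply hback
      refine h1 A5 (N.map f) le_rfl (Subgroup.map_le_iff_le_comap.2 hN) ?_ (hbot N hN0)
      rintro g hg n ⟨m, hm, rfl⟩
      obtain ⟨a, rfl⟩ := hA hg
      exact ⟨a * m * a⁻¹, hnorm a hg m hm, by simp⟩
  · obtain ⟨σ, hσ, τ, hτ, hne⟩ := exists_noncomm
    obtain ⟨a, rfl⟩ := hA hσ
    obtain ⟨b, rfl⟩ := hA hτ
    refine ⟨a, hσ, b, hτ, fun h => hne ?_⟩
    rw [← map_mul, ← map_mul, h]
  · rw [Subgroup.index_comap]
    have h2 : (A5 : Subgroup (Equiv.Perm (Fin 5))).relIndex f.range ∣ 2 := by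
      have h3 := Subgroup.relIndex_dvd_index_of_normal A5 f.range
      rwa [show (A5 : Subgroup (Equiv.Perm (Fin 5))).index = 2 from
        alternatingGroup.index_eq_two] at h3
    rcases (Nat.dvd_prime Nat.prime_two).1 h2 with h | h
    · exact Or.inl h
    · right; rw [h]; exact Nat.prime_two

end Pool.Agent.H52.FIB
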