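import Pool.Agent.H6.FIB.TargetsG

/-!
# MP_7500ea_al, board fib_modules: row IDQ
-/

open scoped Classical

namespace Pool.Agent.H52.FIB

open FI AMc AMt

theorem pf_IDQ (h1 : T_CRD) (h2 : T_DK1) : T_IDQ := by
  intro q A _ _ f hq h7 hf hPS T hT
  obtain ⟨hfin, hcard, hidx, -⟩ := h1 q hq h7
  have hq2 : q ≠ 2 := by omega
  -- the order of `PS q`
  have hPScard : Nat.card (PS q) * 2 = q * (q * q - 1) := by
    have h := (PS q).card_mul_index
    rw [hidx, hcard] at h
    exact h
  have hcop : Nat.Coprime q 2 := by
    rw [Nat.coprime_primes hq Nat.prime_two]; exact hq2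
  have hqPS : q ∣ Nat.card (PS q) := by
    have h3 : q ∣ Nat.card (PS q) * 2 := by rw [hPScard]; exact dvd_mul_right _ _
    exact hcop.dvd_of_dvd_mul_right h3
  set S := (PS q).comap f with hS
  have hSmap : S.map f = PS q := Subgroup.map_comap_eq_self hPS
  have hScard : Nat.card S = Nat.card (PS q) := by
    rw [← hSmap, Subgroup.card_map_of_injective hf]
  have hqA : q ∣ Nat.card A := by
    refine (hqPS.trans ?_)
    rw [← hScard]
    exact Subgroup.card_subgroup_dvd_card S
  have hi0 : T.index ≠ 0 := Subgroup.index_ne_zero_of_finite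
  have hAT : Nat.card T * T.index = Nat.card A := T.card_mul_index
  by_cases hqT : q ∣ Nat.card T
  · have hmc : Nat.card (T.map f) = Nat.card T := Subgroup.card_map_of_injective hf
    rcases h2 q hq h7 (T.map f) (by rw [hmc]; exact hqT) with h3 | ⟨-, h3⟩
    · exfalso
      apply hT
      have h4 := Subgroup.comap_mono (f := f) h3
      rwa [Subgroup.comap_map_eq_self_of_injective hf] at h4
    · have h4 : Nat.card (T ⊓ S : Subgroup A) ≤ Nat.card (T.map f ⊓ PS q : Subgroup (PG q)) := by
        have h5 : Nat.card ((T ⊓ S : Subgroup A).map f) = Nat.card (T ⊓ S : Subgroup A) :=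
          Subgroup.card_map_of_injective hf
        rw [← h5]
        have h6 : (T ⊓ S : Subgroup A).map f ≤ T.map f ⊓ PS q := by
          refine le_inf (Subgroup.map_mono inf_le_left) ?_
          rw [Subgroup.map_le_iff_le_comap]
          exact inf_le_right
        have hfin' : Finite (PG q) := hfin
        exact Subgroup.card_le_of_le h6
      -- the index
      have h5 : T.relIndex S ≤ T.index := by
        rw [← Subgroup.relIndex_top_right]
        exact Subgroup.relIndex_le_of_le_right le_top
          (by rw [Subgroup.relIndex_top_right]; exact hi0)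
      have h6 : Nat.card (T ⊓ S : Subgroup A) * T.relIndex S = Nat.card S := by
        have h7 := Subgroup.relIndex_mul_relIndex ⊥ (T ⊓ S) S bot_le inf_le_right
        rwa [Subgroup.relIndex_bot_left, Subgroup.relIndex_bot_left,
          Subgroup.inf_relIndex_right] at h7
      rw [hScard] at h6
      set c := Nat.card (T ⊓ S : Subgroup A) with hc
      set n := T.relIndex S with hn
      have h8 : 2 * c ≤ q * (q - 1) := by omega
      have h9 : 2 * (c * n) = q * (q * q - 1) := by rw [h6]; omega
      have h10 : q * (q * q - 1) = q * (q - 1) * (q + 1) := by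
        obtain ⟨m, rfl⟩ : ∃ m, q = m + 1 := ⟨q - 1, by omega⟩
        have e1 : (m + 1) * (m + 1) - 1 = m * (m + 1 + 1) := by
          have : (m + 1) * (m + 1) = m * (m + 1 + 1) + 1 := by ring
          omega
        rw [e1, Nat.add_sub_cancel]
        ring
      have h11 : q * (q - 1) * (q + 1) ≤ q * (q - 1) * n := by
        rw [← h10, ← h9]
        calc 2 * (c * n) = (2 * c) * n := by ring
          _ ≤ q * (q - 1) * n := Nat.mul_le_mul_right n h8
      have hpos : 0 < q * (q - 1) := by
        have h12 : 0 < q := by omega
        have h13 : 0 < q - 1 := by omega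
        exact Nat.mul_pos h12 h13
      have h12 : q + 1 ≤ n := Nat.le_of_mul_le_mul_left h11 hpos
      omega
  · have h3 : q ∣ Nat.card T * T.index := by rw [hAT]; exact hqA
    have h4 : q ∣ T.index := (hq.dvd_mul.1 h3).resolve_left hqT
    exact Nat.le_of_dvd (Nat.pos_of_ne_zero hi0) h4

end Pool.Agent.H52.FIB
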