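import Pool.Agent.H6.FIB.TargetsR
import Pool.Agent.H55.FI.CPR

/-!
# MP_7500ea_al, board fib_modules: row LUN
-/

open scoped Classical

namespace Pool.Agent.H52.FIB

open FI AMc AMt

/-- a character of degree one is multiplicative -/
theorem mul_of_one {G : Type} [Group G] {f : G → ℂ} (hf : AMc.IsChar G f) (h1 : f 1 = 1) (a b : G) :
    f (a * b) = f a * f b := by
  obtain ⟨n, ρ, rfl⟩ := hf
  have hn : n = 1 := by
    rw [Representation.char_one] at h1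
    simp only [Module.finrank_fin_fun] at h1
    exact_mod_cast h1
  subst hn
  have htr : ∀ g : G, ρ.character g = (LinearMap.toMatrix' (ρ g)) 0 0 := by
    intro g
    have h2 : ρ.character g = LinearMap.trace ℂ (Fin 1 → ℂ) (ρ g) := rfl
    rw [h2, LinearMap.trace_eq_matrix_trace ℂ (Pi.basisFun ℂ (Fin 1)) (ρ g)]
    simp [Matrix.trace]
  rw [htr, htr, htr, map_mul, LinearMap.toMatrix'_mul, Matrix.mul_apply]
  simp

theorem pf_LUN (h1 : T_SOL) (h2 : T_ALS) (h3 : T_ABL) : T_LUN := by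
  intro A _ _ S hS M _ _ π hπ hker ν hν χ hχ χ' hχ' hχ1 hχ1'
  have hper : ⁅S, S⁆ = S := (h2 A S hS).2.2.2.2
  have hc : ∀ z ∈ π.ker, ∀ g ∈ (⊤ : Subgroup M), z * g = g * z := by
    intro z hz g _
    exact (Subgroup.mem_center_iff.1 (hker hz) g).symm
  have hmul : ∀ φ : M → ℂ, φ ∈ Ab ⊤ ν → φ 1 = 1 → ∀ a b, φ (a * b) = φ a * φ b := by
    intro φ hφ hφ1 a b
    obtain ⟨-, -, -, -, hch, -⟩ := FI.Lib.lS1 M ⊤ φ hφ.1
    have h := mul_of_one hch hφ1 ⟨a, Subgroup.mem_top a⟩ ⟨b, Subgroup.mem_top b⟩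
    exact h
  have hz : ∀ φ : M → ℂ, φ ∈ Ab ⊤ ν → φ 1 = 1 → ∀ z ∈ π.ker, φ z = ν z := by
    intro φ hφ hφ1 z hz
    have h := (Pool.Agent.H55.FI.central_val h3 le_top hc hν hφ).1 z hz
    rw [hφ1, one_mul] at h
    exact h
  have hcomm : ∀ φ : M → ℂ, φ ∈ Ab ⊤ ν → φ 1 = 1 → ∀ d ∈ commutator M, φ d = 1 := by
    intro φ hφ hφ1 d hd
    let X : M →* ℂ := { toFun := φ, map_one' := hφ1, map_mul' := hmul φ hφ hφ1 }
    have h := Abelianization.commutator_subset_ker X.toHomUnits hd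
    rw [MonoidHom.mem_ker] at h
    have h' := congrArg (fun u : ℂˣ => (u : ℂ)) h
    exact h'
  have hmap : (commutator M).map π = S := by
    rw [commutator_def, Subgroup.map_commutator, ← MonoidHom.range_eq_map, hπ, hper]
  funext m
  have hm : π m ∈ (commutator M).map π := by
    rw [hmap, ← hπ]
    exact ⟨m, rfl⟩
  obtain ⟨d, hd, hdm⟩ := hm
  have hk : m * d⁻¹ ∈ π.ker := by
    rw [MonoidHom.mem_ker, map_mul, map_inv, hdm, mul_inv_cancel]
  have e : m = (m * d⁻¹) * d := by group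
  rw [e, hmul χ hχ hχ1, hmul χ' hχ' hχ1', hz χ hχ hχ1 _ hk, hz χ' hχ' hχ1' _ hk,
    hcomm χ hχ hχ1 d hd, hcomm χ' hχ' hχ1' d hd]

end Pool.Agent.H52.FIB
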